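import Mathlib

set_option autoImplicit false

/-! # MP_1c78a5_mp, OddStabilizer: the arithmetic end -/

namespace Pool.Agent.MP_1c78a5_odd

/-- `T` = trace of the involution, `f = T ^ 2` = number of fixed lines, `K` = sum of the signs on
the fixed lines, `N` = sum of the signs on the moved lines: `d + 1` is a perfect square. -/
theorem isSquare_of_trace (d f : ℕ) (T K N : ℤ) (_hd : 0 < d) (hf : (f : ℤ) = T ^ 2) (hf0 : 0 < f)
    (hK : |K| ≤ f) (h : (d : ℝ) * T = K + N / Real.sqrt (d + 1)) (hlt : f < d ^ 2) :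
    IsSquare (d + 1) := by
  have hT : T ≠ 0 := by
    rintro rfl
    simp at hf
    omega
  have hTd : |T| < d := by
    have h0 : T ^ 2 < (d : ℤ) ^ 2 := by
      rw [← hf]
      exact_mod_cast hlt
    exact abs_lt_of_sq_lt_sq h0 (by positivity)
  have h1 : (d : ℤ) * T ≠ K := by
    intro he
    have h2 : (d : ℤ) * |T| ≤ |T| * |T| := by
      calc (d : ℤ) * |T| = |(d : ℤ) * T| := by rw [abs_mul]; simp
        _ = |K| := by rw [he]
        _ ≤ f := hK
        _ = T ^ 2 := hf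
        _ = |T| * |T| := by rw [← sq, sq_abs]
    have h3 : 0 < |T| := abs_pos.mpr hT
    have h4 := le_of_mul_le_mul_right h2 h3
    omega
  have hs : 0 < Real.sqrt (d + 1) := Real.sqrt_pos.mpr (by positivity)
  have h4 : (((d : ℤ) * T - K : ℤ) : ℝ) * Real.sqrt (d + 1) = N := by
    push_cast
    rw [sub_mul, h, add_mul, div_mul_cancel₀ _ hs.ne']
    ring
  have h5 : ((d : ℤ) * T - K) ^ 2 * ((d + 1 : ℕ) : ℤ) = N ^ 2 := by
    have h6 : (((d : ℤ) * T - K : ℤ) : ℝ) ^ 2 * (d + 1) = (N : ℝ) ^ 2 := by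
      rw [← h4, mul_pow, Real.sq_sqrt (by positivity)]
    exact_mod_cast h6
  have h7 : IsSquare (((d + 1 : ℕ) : ℤ)) := by
    have h8 : ((d : ℤ) * T - K) ^ 2 ∣ N ^ 2 := ⟨_, h5.symm⟩
    have h9 : ((d : ℤ) * T - K) ∣ N := (Int.pow_dvd_pow_iff two_ne_zero).mp h8
    obtain ⟨q, hq⟩ := h9
    refine ⟨q, ?_⟩
    have h10 : ((d : ℤ) * T - K) ^ 2 ≠ 0 := pow_ne_zero 2 (sub_ne_zero.mpr h1)
    apply mul_left_cancel₀ h10
    rw [h5, hq]
    ring
  exact Int.isSquare_natCast_iff.mp h7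

end Pool.Agent.MP_1c78a5_odd
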