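import Mathlib
import Pool.Agent.Lib_MP_1c78a5_odd.Arith43

set_option autoImplicit false

/-! # MP_1c78a5_mp, OddStabilizer: the arithmetic end with the sums -/

namespace Pool.Agent.MP_1c78a5_odd

/-- A family of signs: the sum of `t` over a finite set on which `t = ± c` is `n * c` with an
integer `n` with `|n| ≤` the number of terms. -/
theorem sum_signs {ι : Type*} (S : Finset ι) (t : ι → ℝ) (c : ℝ)
    (ht : ∀ x ∈ S, t x = c ∨ t x = -c) : ∃ n : ℤ, |n| ≤ (S.card : ℤ) ∧ ∑ x ∈ S, t x = n * c := by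
  classical
  induction S using Finset.induction_on with
  | empty => exact ⟨0, by simp, by simp⟩
  | insert a s ha ih =>
    obtain ⟨n, hn, he⟩ := ih fun x hx => ht x (Finset.mem_insert_of_mem hx)
    rw [Finset.sum_insert ha, Finset.card_insert_of_notMem ha, he]
    push_cast
    rcases ht a (Finset.mem_insert_self a s) with h | h
    · refine ⟨n + 1, ?_, ?_⟩
      · rw [abs_le] at hn ⊢
        constructor <;> linarith [hn.1, hn.2]
      · rw [h]; push_cast; ring
    · refine ⟨n - 1, ?_, ?_⟩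
      · rw [abs_le] at hn ⊢
        constructor <;> linarith [hn.1, hn.2]
      · rw [h]; push_cast; ring

/-- `t x` = the value of the involution at the vector `x`; `S` = the fixed lines. -/
theorem isSquare_of_sums {ι : Type*} [Fintype ι] [DecidableEq ι] (d : ℕ) (hd : 0 < d)
    (hι : Fintype.card ι = d ^ 2) (S : Finset ι) (hS : S.Nonempty) (hS' : S ≠ Finset.univ)
    (t : ι → ℝ) (ht : ∀ x ∈ S, t x = 1 ∨ t x = -1)
    (ht' : ∀ x, x ∉ S → t x = (Real.sqrt (d + 1))⁻¹ ∨ t x = -(Real.sqrt (d + 1))⁻¹)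
    (T : ℤ) (h1 : ∑ x, t x = d * T) (h2 : (d + 1) * ∑ x, t x ^ 2 = d * (T ^ 2 + d)) :
    IsSquare (d + 1) ∧ (S.card : ℤ) = T ^ 2 := by
  have hdR : (0 : ℝ) < d := by exact_mod_cast hd
  have hs : 0 < Real.sqrt (d + 1) := Real.sqrt_pos.mpr (by positivity)
  have hsq : Real.sqrt (d + 1) ^ 2 = d + 1 := Real.sq_sqrt (by positivity)
  have hcard : S.card + (Finset.univ \ S).card = d ^ 2 := by
    rw [← hι, ← Finset.card_univ, add_comm]
    exact Finset.card_sdiff_add_card_eq_card (Finset.subset_univ S)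
  have hcardR : (S.card : ℝ) + ((Finset.univ \ S).card : ℝ) = (d : ℝ) ^ 2 := by
    exact_mod_cast hcard
  -- the number of fixed lines
  have hf : (S.card : ℤ) = T ^ 2 := by
    have e1 : ∑ x ∈ S, t x ^ 2 = S.card := by
      rw [Finset.sum_congr rfl (g := fun _ => (1 : ℝ))]
      · simp
      · intro x hx
        rcases ht x hx with h | h <;> rw [h] <;> norm_num
    have e2 : (d + 1) * ∑ x ∈ Finset.univ \ S, t x ^ 2 = (Finset.univ \ S).card := by
      rw [Finset.sum_congr rfl (g := fun _ => ((d : ℝ) + 1)⁻¹)]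
      · rw [Finset.sum_const, nsmul_eq_mul]
        field_simp
      · intro x hx
        have hx' : x ∉ S := (Finset.mem_sdiff.mp hx).2
        rcases ht' x hx' with h | h <;> rw [h]
        · rw [inv_pow, hsq]
        · rw [neg_sq, inv_pow, hsq]
    have e3 : ∑ x, t x ^ 2 = ∑ x ∈ Finset.univ \ S, t x ^ 2 + ∑ x ∈ S, t x ^ 2 :=
      (Finset.sum_sdiff (Finset.subset_univ S)).symm
    have e4 : (d : ℝ) * S.card = d * T ^ 2 := by
      rw [e3, mul_add, e2, e1] at h2
      nlinarith [h2, hcardR]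
    have e5 : (S.card : ℝ) = T ^ 2 := mul_left_cancel₀ hdR.ne' e4
    exact_mod_cast e5
  refine ⟨?_, hf⟩
  obtain ⟨K, hK, hK'⟩ := sum_signs S t 1 (by simpa using ht)
  obtain ⟨N, -, hN'⟩ := sum_signs (Finset.univ \ S) t (Real.sqrt (d + 1))⁻¹
    (fun x hx => ht' x (Finset.mem_sdiff.mp hx).2)
  refine isSquare_of_trace d S.card T K N hd hf (Finset.card_pos.mpr hS) hK ?_ ?_
  · rw [← h1, ← Finset.sum_sdiff (Finset.subset_univ S), hK', hN', div_eq_mul_inv]
    ring
  · rw [← hι]
    exact (Finset.card_lt_iff_ne_univ S).mpr hS'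

end Pool.Agent.MP_1c78a5_odd
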