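import Mathlib

/-!
# Weyl-Heisenberg displacement operators and SIC fiducials
-/

set_option autoImplicit false

namespace Pool.Agent.Lib_MP_1c78a5_odd

open Matrix

/-- The shift operator `X`: `X |j⟩ = |j+1⟩`, indices modulo `d`. -/
noncomputable def shiftOp (d : ℕ) [NeZero d] : Matrix (ZMod d) (ZMod d) ℂ :=
  Matrix.of fun i j => if i = j + 1 then 1 else 0

/-- The clock operator `Z`: `Z |j⟩ = ω^j |j⟩`, `ω = exp (2πi/d)`. -/
noncomputable def clockOp (d : ℕ) [NeZero d] : Matrix (ZMod d) (ZMod d) ℂ :=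
  Matrix.diagonal fun j => Complex.exp (2 * Real.pi * Complex.I / d) ^ j.val

/-- The displacement operator `D_{a,b} = X^a Z^b`. -/
noncomputable def displacement (d : ℕ) [NeZero d] (a b : ZMod d) :
    Matrix (ZMod d) (ZMod d) ℂ :=
  shiftOp d ^ a.val * clockOp d ^ b.val

/-- `ψ` is a Weyl-Heisenberg SIC fiducial: a unit vector with `|⟨ψ| D_{a,b} |ψ⟩|² = 1 / (d + 1)`
for all `(a, b) ≠ (0, 0)`. -/
def IsFiducial {d : ℕ} [NeZero d] (ψ : ZMod d → ℂ) : Prop :=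
  ∑ i, ‖ψ i‖ ^ 2 = 1 ∧
    ∀ a b : ZMod d, (a, b) ≠ (0, 0) → ‖star ψ ⬝ᵥ (displacement d a b *ᵥ ψ)‖ ^ 2 = 1 / ((d : ℝ) + 1)

end Pool.Agent.Lib_MP_1c78a5_odd
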