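import Mathlib

/-!
# Symmetries of order two of a SIC

`v : J → (I → ℂ)` is a SIC: `#J = (#I) ^ 2` unit vectors with `|⟨v x, v y⟩|² = 1 / (d + 1)`, `d = #I`.
-/

set_option autoImplicit false
set_option linter.unusedSectionVars false

namespace Pool.Agent.Lib_MP_1c78a5_odd

open Matrix Finset

variable {I J : Type} [Fintype I] [DecidableEq I] [Fintype J] [DecidableEq J]

/-- the inner product -/
def ip (u w : I → ℂ) : ℂ := star u ⬝ᵥ w

/-- a SIC -/
structure IsSIC (v : J → I → ℂ) : Prop where
  card : Fintype.card J = Fintype.card I ^ 2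
  unit : ∀ x, ip (v x) (v x) = 1
  off : ∀ x y, x ≠ y → ‖ip (v x) (v y)‖ ^ 2 = 1 / ((Fintype.card I : ℝ) + 1)

/-- the projector -/
def pr (v : J → I → ℂ) (x : J) : Matrix I I ℂ := vecMulVec (v x) (star (v x))

/-- the expectation -/
def q (v : J → I → ℂ) (M : Matrix I I ℂ) (x : J) : ℂ := ip (v x) (M *ᵥ v x)

theorem ip_conj (u w : I → ℂ) : star (ip u w) = ip w u := by
  unfold ip
  rw [star_dotProduct_star_comm_aux u w]
where
  star_dotProduct_star_comm_aux (u w : I → ℂ) : star (star u ⬝ᵥ w) = star w ⬝ᵥ u := by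
    simp only [dotProduct, Pi.star_apply, star_sum, star_mul', star_star]
    exact sum_congr rfl fun i _ => mul_comm _ _

theorem ip_smul_right (c : ℂ) (u w : I → ℂ) : ip u (c • w) = c * ip u w := by
  unfold ip
  rw [dotProduct_smul, smul_eq_mul]

theorem ip_smul_left (c : ℂ) (u w : I → ℂ) : ip (c • u) w = star c * ip u w := by
  unfold ip
  rw [star_smul, smul_dotProduct, smul_eq_mul]

theorem trace_pr_mul (v : J → I → ℂ) (M : Matrix I I ℂ) (x : J) :
    (M * pr v x).trace = q v M x := by
  unfold pr q ip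
  rw [mul_vecMulVec, trace_vecMulVec, dotProduct_comm]

theorem pr_mulVec (v : J → I → ℂ) (x : J) (w : I → ℂ) : pr v x *ᵥ w = ip (v x) w • v x := by
  unfold pr ip
  rw [vecMulVec_mulVec]
  funext i
  simp [mul_comm]

/-- the Gram numbers -/
theorem q_pr {v : J → I → ℂ} (h : IsSIC v) (x y : J) :
    q v (pr v y) x = if x = y then 1 else 1 / ((Fintype.card I : ℂ) + 1) := by
  unfold q
  rw [pr_mulVec, ip_smul_right, ← ip_conj (v x) (v y)]
  have h1 : star (ip (v x) (v y)) * ip (v x) (v y) = ((‖ip (v x) (v y)‖ ^ 2 : ℝ) : ℂ) := by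
    rw [Complex.star_def, ← Complex.normSq_eq_conj_mul_self, Complex.normSq_eq_norm_sq]
  rw [h1]
  split_ifs with hxy
  · subst hxy
    rw [h.unit]
    simp
  · rw [h.off x y hxy]
    push_cast
    rfl

theorem q_add (v : J → I → ℂ) (M N : Matrix I I ℂ) (x : J) : q v (M + N) x = q v M x + q v N x := by
  unfold q ip
  rw [add_mulVec, dotProduct_add]

theorem q_smul (v : J → I → ℂ) (c : ℂ) (M : Matrix I I ℂ) (x : J) :
    q v (c • M) x = c * q v M x := by
  unfold q ip
  rw [smul_mulVec, dotProduct_smul, smul_eq_mul]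

/-- the expectation as a linear functional -/
def qL (v : J → I → ℂ) (x : J) : Matrix I I ℂ →ₗ[ℂ] ℂ where
  toFun M := q v M x
  map_add' M N := q_add v M N x
  map_smul' c M := q_smul v c M x

theorem dne (I : Type) [Fintype I] : ((Fintype.card I : ℂ) + 1) ≠ 0 := by
  have : ((Fintype.card I : ℂ) + 1) = ((Fintype.card I + 1 : ℕ) : ℂ) := by push_cast; rfl
  rw [this]
  exact Nat.cast_ne_zero.2 (Nat.succ_ne_zero _)

theorem linInd {v : J → I → ℂ} (h : IsSIC v) : LinearIndependent ℂ (pr v) := by
  rw [Fintype.linearIndependent_iff]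
  intro c hc
  have hd := dne I
  have h1 : ∀ y, ∑ x, c x * (if y = x then 1 else 1 / ((Fintype.card I : ℂ) + 1)) = 0 := by
    intro y
    have h2 := congrArg (qL v y) hc
    rw [map_sum, map_zero] at h2
    rw [← h2]
    refine sum_congr rfl fun x _ => ?_
    rw [map_smul, smul_eq_mul]
    exact congrArg (c x * ·) (q_pr h y x).symm
  have h2 : ∀ y, (Fintype.card I : ℂ) * c y + ∑ x, c x = 0 := by
    intro y
    have h3 := h1 y
    have h4 : ∀ x, c x * (if y = x then 1 else 1 / ((Fintype.card I : ℂ) + 1)) =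
        c x / ((Fintype.card I : ℂ) + 1) +
          (if y = x then c x * ((Fintype.card I : ℂ) / ((Fintype.card I : ℂ) + 1)) else 0) := by
      intro x
      split_ifs
      · field_simp
        ring
      · ring
    rw [sum_congr rfl fun x _ => h4 x, sum_add_distrib, sum_ite_eq, if_pos (mem_univ _),
      ← sum_div] at h3
    field_simp at h3
    linear_combination h3
  have h3 : ∑ x, c x = 0 := by
    have h4 : ∑ y, ((Fintype.card I : ℂ) * c y + ∑ x, c x) = 0 := sum_eq_zero fun y _ => h2 y
    rw [sum_add_distrib, ← mul_sum, sum_const, card_univ, h.card, nsmul_eq_mul] at h4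
    have h5 : (Fintype.card I : ℂ) * ((Fintype.card I : ℂ) + 1) * ∑ x, c x = 0 := by
      rw [← h4]
      push_cast
      ring
    rcases mul_eq_zero.1 h5 with h6 | h6
    · rcases mul_eq_zero.1 h6 with h7 | h7
      · have h8 : Fintype.card J = 0 := by
          rw [h.card, Nat.cast_eq_zero.1 h7]
          rfl
        have : IsEmpty J := Fintype.card_eq_zero_iff.1 h8
        simp
      · exact absurd h7 hd
    · exact h6
  intro y
  have h4 := h2 y
  rw [h3, add_zero] at h4
  rcases mul_eq_zero.1 h4 with h5 | h5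
  · have h8 : Fintype.card J = 0 := by
      rw [h.card, Nat.cast_eq_zero.1 h5]
      rfl
    exact (Fintype.card_eq_zero_iff.1 h8).elim y
  · exact h5

theorem span_pr {v : J → I → ℂ} (h : IsSIC v) : Submodule.span ℂ (Set.range (pr v)) = ⊤ := by
  apply (linInd h).span_eq_top_of_card_eq_finrank'
  rw [h.card, Module.finrank_matrix, Module.finrank_self, mul_one, sq]

theorem sum_ite_gram {v : J → I → ℂ} (h : IsSIC v) (f : J → ℂ) (y : J) :
    ∑ x, f x * (if x = y then 1 else 1 / ((Fintype.card I : ℂ) + 1)) =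
      ((Fintype.card I : ℂ) * f y + ∑ x, f x) / ((Fintype.card I : ℂ) + 1) := by
  have hd := dne I
  have h4 : ∀ x, f x * (if x = y then 1 else 1 / ((Fintype.card I : ℂ) + 1)) =
      f x / ((Fintype.card I : ℂ) + 1) +
        (if x = y then f x * ((Fintype.card I : ℂ) / ((Fintype.card I : ℂ) + 1)) else 0) := by
    intro x
    split_ifs
    · field_simp
      ring
    · ring
  rw [sum_congr rfl fun x _ => h4 x, sum_add_distrib, sum_ite_eq', if_pos (mem_univ _), ← sum_div]
  field_simp
  ring

theorem trace_pr {v : J → I → ℂ} (h : IsSIC v) (x : J) : (pr v x).trace = 1 := by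
  unfold pr
  rw [trace_vecMulVec, dotProduct_comm]
  exact h.unit x

/-- one-design -/
theorem sum_q {v : J → I → ℂ} (h : IsSIC v) (M : Matrix I I ℂ) :
    ∑ x, q v M x = (Fintype.card I : ℂ) * M.trace := by
  have hd := dne I
  have h1 : (∑ x, qL v x) = (Fintype.card I : ℂ) • Matrix.traceLinearMap I ℂ ℂ := by
    apply LinearMap.ext_on_range (span_pr h)
    intro y
    rw [LinearMap.sum_apply, LinearMap.smul_apply, Matrix.traceLinearMap_apply, trace_pr h,
      smul_eq_mul, mul_one]
    have h2 : ∀ x, (qL v x) (pr v y) = 1 * (if x = y then 1 else 1 / ((Fintype.card I : ℂ) + 1)) := by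
      intro x
      rw [one_mul]
      exact q_pr h x y
    rw [sum_congr rfl fun x _ => h2 x, sum_ite_gram h (fun _ => 1) y, sum_const, card_univ, h.card,
      nsmul_eq_mul]
    push_cast
    field_simp
    ring
  have h2 := LinearMap.congr_fun h1 M
  rw [LinearMap.sum_apply, LinearMap.smul_apply, Matrix.traceLinearMap_apply, smul_eq_mul] at h2
  exact h2

/-- two-design -/
theorem sum_q_mul {v : J → I → ℂ} (h : IsSIC v) (M N : Matrix I I ℂ) :
    ∑ x, q v M x * q v N x = (Fintype.card I : ℂ) * ((M * N).trace + M.trace * N.trace) /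
      ((Fintype.card I : ℂ) + 1) := by
  have hd := dne I
  have h1 : (∑ x, q v M x • qL v x) = ((Fintype.card I : ℂ) / ((Fintype.card I : ℂ) + 1)) •
      (Matrix.traceLinearMap I ℂ ℂ ∘ₗ LinearMap.mulLeft ℂ M + M.trace • Matrix.traceLinearMap I ℂ ℂ) := by
    apply LinearMap.ext_on_range (span_pr h)
    intro y
    simp only [LinearMap.sum_apply, LinearMap.smul_apply, Matrix.traceLinearMap_apply, trace_pr h,
      smul_eq_mul, mul_one, LinearMap.add_apply, LinearMap.comp_apply, LinearMap.mulLeft_apply,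
      trace_pr_mul]
    have h2 : ∀ x, q v M x * (qL v x) (pr v y) =
        q v M x * (if x = y then 1 else 1 / ((Fintype.card I : ℂ) + 1)) := by
      intro x
      exact congrArg (q v M x * ·) (q_pr h x y)
    rw [sum_congr rfl fun x _ => h2 x, sum_ite_gram h (fun x => q v M x) y, sum_q h]
    field_simp
  have h2 := LinearMap.congr_fun h1 N
  simp only [LinearMap.sum_apply, LinearMap.smul_apply, Matrix.traceLinearMap_apply,
      smul_eq_mul, LinearMap.add_apply, LinearMap.comp_apply, LinearMap.mulLeft_apply] at h2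
  rw [show ∑ x, q v M x * q v N x = ∑ x, q v M x * (qL v x) N from rfl, h2]
  field_simp

end Pool.Agent.Lib_MP_1c78a5_odd
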