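import Pool.Agent.Lib_MP_1c78a5_odd.Sym

/-!
# Groups of symmetries of a SIC
-/

set_option autoImplicit false
set_option linter.unusedSectionVars false

namespace Pool.Agent.Lib_MP_1c78a5_odd

open Matrix Finset

variable {I J : Type} [Fintype I] [DecidableEq I] [Fintype J] [DecidableEq J]

theorem square_of_sym {v : J → I → ℂ} (h : IsSIC v) {U : Matrix I I ℂ} (hU : Uᴴ * U = 1)
    (π : J → J) (hπ : ∀ x, ∃ c : ℂ, U *ᵥ v x = c • v (π x))
    (hfix : ∃ x, π x = x) (hz : ∃ z : ℂ, U * U = z • 1) (hns : ¬ ∃ z : ℂ, U = z • 1) :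
    IsSquare (Fintype.card I + 1) := by
  obtain ⟨x0, hx0⟩ := hfix
  obtain ⟨c, hc⟩ := hπ x0
  rw [hx0] at hc
  have hc1 := norm_phase h hU hc
  have hc0 : c ≠ 0 := by
    rintro rfl
    simp at hc1
  obtain ⟨z, hz⟩ := hz
  have hzc : z = c * c := by
    have h1 : (U * U) *ᵥ v x0 = (c * c) • v x0 := by
      rw [← mulVec_mulVec, hc, mulVec_smul, hc, smul_smul]
    rw [hz, smul_mulVec, one_mulVec] at h1
    have h2 := congrArg (ip (v x0)) h1
    rw [ip_smul_right, ip_smul_right, h.unit, mul_one, mul_one] at h2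
    exact h2
  have hsc : star c⁻¹ * c⁻¹ = 1 := by
    rw [star_inv₀, ← mul_inv, hc1, inv_one]
  refine square_of_involution h (U := c⁻¹ • U) ?_ ?_ π ?_ ⟨x0, hx0⟩ ?_
  · rw [conjTranspose_smul, smul_mul_smul_comm, hU, hsc, one_smul]
  · rw [smul_mul_smul_comm, hz, hzc, smul_smul]
    have : c⁻¹ * c⁻¹ * (c * c) = 1 := by field_simp
    rw [this, one_smul]
  · intro x
    obtain ⟨e, he⟩ := hπ x
    exact ⟨c⁻¹ * e, by rw [smul_mulVec, he, smul_smul]⟩
  · rintro ⟨w, hw⟩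
    apply hns
    refine ⟨c * w, ?_⟩
    have h1 := congrArg (fun M => c • M) hw
    simp only [smul_smul, mul_inv_cancel₀ hc0, one_smul] at h1
    exact h1

theorem odd_of_group {v : J → I → ℂ} (h : IsSIC v) (hnsq : ¬ IsSquare (Fintype.card I + 1)) (x0 : J)
    (G : Subgroup (Equiv.Perm J))
    (hG : ∀ π ∈ G, π x0 = x0 ∧ ∃ U : Matrix I I ℂ, Uᴴ * U = 1 ∧
      ∀ x, ∃ c : ℂ, U *ᵥ v x = c • v (π x)) : Odd (Nat.card G) := by
  by_contra hodd
  rw [Nat.not_odd_iff_even] at hodd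
  have : Fact (Nat.Prime 2) := ⟨Nat.prime_two⟩
  obtain ⟨g, hg⟩ := exists_prime_orderOf_dvd_card' (G := G) 2 hodd.two_dvd
  have hg2 : g ^ 2 = 1 := by rw [← hg]; exact pow_orderOf_eq_one g
  have hg1 : g ≠ 1 := by
    rintro rfl
    rw [orderOf_one] at hg
    omega
  obtain ⟨hfix, U, hU, hπ⟩ := hG g.1 g.2
  have hπ2 : ∀ x, (g.1 : Equiv.Perm J) (g.1 x) = x := by
    intro x
    have h1 : (g.1 : Equiv.Perm J) ^ 2 = 1 := by
      have := congrArg Subtype.val hg2
      simpa using this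
    have h2 := congrArg (fun p : Equiv.Perm J => p x) h1
    simpa [sq] using h2
  have hI : Fintype.card I ≠ 0 := by
    intro h0
    have h1 := h.card
    rw [h0] at h1
    have : IsEmpty J := Fintype.card_eq_zero_iff.1 (by simpa using h1)
    exact this.elim x0
  apply hnsq
  refine square_of_sym h hU g.1 hπ ⟨x0, hfix⟩ ?_ ?_
  · apply scalar_of_fix h
    · rw [conjTranspose_mul, mul_assoc, ← mul_assoc Uᴴ U, hU, one_mul, hU]
    · intro x
      obtain ⟨c, hc⟩ := hπ x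
      obtain ⟨e, he⟩ := hπ (g.1 x)
      refine ⟨c * e, ?_⟩
      rw [← mulVec_mulVec, hc, mulVec_smul, he, smul_smul, hπ2]
  · rintro ⟨z, hz⟩
    apply hg1
    apply Subtype.ext
    ext x
    change g.1 x = x
    by_contra hx
    obtain ⟨c, hc⟩ := hπ x
    have hc1 := norm_phase h hU hc
    rw [hz, smul_mulVec, one_mulVec] at hc
    have h1 := congrArg (ip (v x)) hc
    rw [ip_smul_right, ip_smul_right, h.unit, mul_one] at h1
    have h2 := congrArg (ip (v (g.1 x))) hc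
    rw [ip_smul_right, ip_smul_right, h.unit, mul_one] at h2
    have hcn : ‖c‖ = 1 := by
      have h3 : ((‖c‖ ^ 2 : ℝ) : ℂ) = 1 := by
        rw [← Complex.normSq_eq_norm_sq, Complex.normSq_eq_conj_mul_self]
        exact hc1
      have h4 : ‖c‖ ^ 2 = 1 := by exact_mod_cast h3
      nlinarith [norm_nonneg c]
    have hoff := h.off x (g.1 x) (Ne.symm hx)
    have hoff' := h.off (g.1 x) x hx
    have h3 : ‖z‖ = ‖ip (v x) (v (g.1 x))‖ := by rw [h1, norm_mul, hcn, one_mul]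
    have h4 : ‖z‖ * ‖ip (v (g.1 x)) (v x)‖ = 1 := by rw [← norm_mul, h2, hcn]
    have h5 : (‖z‖ * ‖ip (v (g.1 x)) (v x)‖) ^ 2 = 1 := by rw [h4, one_pow]
    rw [mul_pow, hoff', h3, hoff] at h5
    have h6 : (0 : ℝ) < Fintype.card I := by
      exact_mod_cast Nat.pos_of_ne_zero hI
    field_simp at h5
    nlinarith

end Pool.Agent.Lib_MP_1c78a5_odd
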