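import Pool.Agent.Lib_MP_1c78a5_odd.Defs

/-!
# Multiplications as symmetries of the Weyl-Heisenberg orbit of a vector
-/

set_option autoImplicit false

namespace Pool.Agent.Lib_MP_1c78a5_odd

open Matrix Finset

theorem shift_mulVec35 {d : ℕ} [NeZero d] (n : ℕ) (ψ : ZMod d → ℂ) :
    shiftOp d ^ n *ᵥ ψ = fun i => ψ (i - n) := by
  induction n generalizing ψ with
  | zero => simp
  | succ n ih =>
    rw [pow_succ, ← Matrix.mulVec_mulVec, ih]
    funext i
    have h1 : (shiftOp d *ᵥ ψ) (i - n) = ψ (i - n - 1) := by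
      unfold shiftOp Matrix.mulVec dotProduct
      simp only [Matrix.of_apply]
      rw [sum_eq_single (i - n - 1)]
      · simp
      · intro j _ hj
        rw [if_neg, zero_mul]
        intro h
        apply hj
        rw [h]
        ring
      · intro h
        exact absurd (mem_univ _) h
    rw [h1]
    congr 1
    push_cast
    ring

theorem clock_mulVec35 {d : ℕ} [NeZero d] (n : ℕ) (ψ : ZMod d → ℂ) (i : ZMod d) :
    (clockOp d ^ n *ᵥ ψ) i = (Complex.exp (2 * Real.pi * Complex.I / d) ^ n) ^ i.val * ψ i := by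
  unfold clockOp
  rw [Matrix.diagonal_pow, Matrix.mulVec_diagonal, Pi.pow_apply, ← pow_mul, ← pow_mul, mul_comm n]

theorem displacement_mulVec35 {d : ℕ} [NeZero d] (a b : ZMod d) (ψ : ZMod d → ℂ) (i : ZMod d) :
    (displacement d a b *ᵥ ψ) i =
      Complex.exp (2 * Real.pi * Complex.I / d) ^ (b.val * (i - a).val) * ψ (i - a) := by
  unfold displacement
  rw [← Matrix.mulVec_mulVec, shift_mulVec35]
  simp only [ZMod.natCast_zmod_val]
  rw [clock_mulVec35, pow_mul]

theorem root_pow35 {d : ℕ} [NeZero d] {m n : ℕ} (h : (m : ZMod d) = (n : ZMod d)) :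
    Complex.exp (2 * Real.pi * Complex.I / d) ^ m = Complex.exp (2 * Real.pi * Complex.I / d) ^ n := by
  have h1 : Complex.exp (2 * Real.pi * Complex.I / d) ^ d = 1 := by
    rw [← Complex.exp_nat_mul]
    have hd : (d : ℂ) ≠ 0 := Nat.cast_ne_zero.2 (NeZero.ne d)
    have : (d : ℂ) * (2 * Real.pi * Complex.I / d) = 2 * Real.pi * Complex.I := by
      field_simp
    rw [this, Complex.exp_two_pi_mul_I]
  have h2 : m % d = n % d := (ZMod.natCast_eq_natCast_iff' m n d).1 h
  rw [pow_eq_pow_mod m h1, pow_eq_pow_mod n h1, h2]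

/-- A multiplication `i ↦ u i`, `u² = 1`, which maps `ψ` to a multiple of itself permutes the lines
of the Weyl-Heisenberg orbit of `ψ`. -/
theorem mult_sym (d : ℕ) [NeZero d] (u : ZMod d) (hu : u * u = 1) (psi : ZMod d → ℂ) (e : ℂ)
    (he : ∀ i, psi (u * i) = e * psi i) :
    ∃ U : Matrix (ZMod d) (ZMod d) ℂ, Uᴴ * U = 1 ∧ U * U = 1 ∧
      (∀ a b, U *ᵥ (displacement d a b *ᵥ psi) = e • (displacement d (u * a) (u * b) *ᵥ psi)) ∧
      (u ≠ 1 → ¬ ∃ z : ℂ, U = z • 1) := by
  have hinv : ∀ i j : ZMod d, j = u * i ↔ i = u * j := by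
    intro i j
    constructor
    · intro h
      rw [h, ← mul_assoc, hu, one_mul]
    · intro h
      rw [h, ← mul_assoc, hu, one_mul]
  let U : Matrix (ZMod d) (ZMod d) ℂ := Matrix.of fun i j => if j = u * i then 1 else 0
  have hUap : ∀ i j, U i j = if j = u * i then 1 else 0 := fun _ _ => rfl
  have hUU : U * U = 1 := by
    ext i j
    rw [Matrix.mul_apply, sum_eq_single (u * i)]
    · rw [hUap, hUap, if_pos rfl, one_mul, ← mul_assoc, hu, one_mul, Matrix.one_apply]
      simp only [eq_comm]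
    · intro k _ hk
      rw [hUap, if_neg hk, zero_mul]
    · intro h
      exact absurd (mem_univ _) h
  have hUH : Uᴴ = U := by
    ext i j
    rw [Matrix.conjTranspose_apply, hUap, hUap]
    by_cases h : j = u * i
    · rw [if_pos h, if_pos ((hinv i j).1 h), star_one]
    · rw [if_neg h, if_neg (fun h' => h ((hinv j i).1 h')), star_zero]
  have hUv : ∀ (w : ZMod d → ℂ) (i : ZMod d), (U *ᵥ w) i = w (u * i) := by
    intro w i
    show ∑ j, U i j * w j = w (u * i)
    rw [sum_eq_single (u * i)]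
    · rw [hUap, if_pos rfl, one_mul]
    · intro k _ hk
      rw [hUap, if_neg hk, zero_mul]
    · intro h
      exact absurd (mem_univ _) h
  refine ⟨U, by rw [hUH, hUU], hUU, ?_, ?_⟩
  · intro a b
    funext i
    rw [hUv, displacement_mulVec35, Pi.smul_apply, displacement_mulVec35, smul_eq_mul]
    have h1 : u * i - a = u * (i - u * a) := by
      rw [mul_sub, ← mul_assoc u u a, hu, one_mul]
    have h2 : Complex.exp (2 * Real.pi * Complex.I / d) ^ (b.val * (u * (i - u * a)).val) =
        Complex.exp (2 * Real.pi * Complex.I / d) ^ ((u * b).val * (i - u * a).val) := by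
      apply root_pow35
      push_cast
      simp only [ZMod.natCast_zmod_val]
      ring
    rw [h1, he, h2]
    ring
  · rintro hu1 ⟨z, hz⟩
    have h1 : U 1 u = 1 := by rw [hUap, mul_one, if_pos rfl]
    rw [hz, Matrix.smul_apply, Matrix.one_apply_ne (Ne.symm hu1), smul_zero] at h1
    exact zero_ne_one h1

end Pool.Agent.Lib_MP_1c78a5_odd
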