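import Pool.Agent.Lib_MP_1c78a5_odd.Sym43

/-!
# Symmetries of a SIC: a line is fixed, or the dimension is odd
-/

set_option autoImplicit false
set_option linter.unusedSectionVars false

namespace Pool.Agent.Lib_MP_1c78a5_odd

open Matrix Finset

variable {I J : Type} [Fintype I] [DecidableEq I] [Fintype J] [DecidableEq J]

theorem odd_of_group58 {v : J → I → ℂ} (h : IsSIC v) (hnsq : ¬ IsSquare (Fintype.card I + 1))
    (G : Subgroup (Equiv.Perm J))
    (hG : ∀ π ∈ G, ((∃ x, π x = x) ∨ Odd (Fintype.card I)) ∧ ∃ U : Matrix I I ℂ, Uᴴ * U = 1 ∧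
      ∀ x, ∃ c : ℂ, U *ᵥ v x = c • v (π x)) : Odd (Nat.card G) := by
  by_contra hodd
  rw [Nat.not_odd_iff_even] at hodd
  have : Fact (Nat.Prime 2) := ⟨Nat.prime_two⟩
  obtain ⟨g, hg⟩ := exists_prime_orderOf_dvd_card' (G := G) 2 hodd.two_dvd
  have hg2 : g ^ 2 = 1 := by rw [← hg]; exact pow_orderOf_eq_one g
  have hg1 : g ≠ 1 := by
    rintro rfl
    rw [orderOf_one] at hg
    omega
  obtain ⟨hfix, U, hU, hπ⟩ := hG g.1 g.2
  have hπ2 : ∀ x, (g.1 : Equiv.Perm J) (g.1 x) = x := by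
    intro x
    have h1 : (g.1 : Equiv.Perm J) ^ 2 = 1 := by
      have := congrArg Subtype.val hg2
      simpa using this
    have h2 := congrArg (fun p : Equiv.Perm J => p x) h1
    simpa [sq] using h2
  apply hnsq
  refine square_of_sym' h hU g.1 hπ hfix.symm ?_ ?_
  · apply scalar_of_fix h
    · rw [conjTranspose_mul, mul_assoc, ← mul_assoc Uᴴ U, hU, one_mul, hU]
    · intro x
      obtain ⟨c, hc⟩ := hπ x
      obtain ⟨e, he⟩ := hπ (g.1 x)
      refine ⟨c * e, ?_⟩
      rw [← mulVec_mulVec, hc, mulVec_smul, he, smul_smul, hπ2]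
  · rintro ⟨z, hz⟩
    apply hg1
    apply Subtype.ext
    ext x
    change g.1 x = x
    by_contra hx
    obtain ⟨c, hc⟩ := hπ x
    have hI : Fintype.card I ≠ 0 := by
      intro h0
      have h1 := h.card
      rw [h0] at h1
      have : IsEmpty J := Fintype.card_eq_zero_iff.1 (by simpa using h1)
      exact this.elim x
    have hc1 := norm_phase h hU hc
    rw [hz, smul_mulVec, one_mulVec] at hc
    have h1 := congrArg (ip (v x)) hc
    rw [ip_smul_right, ip_smul_right, h.unit, mul_one] at h1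
    have h2 := congrArg (ip (v (g.1 x))) hc
    rw [ip_smul_right, ip_smul_right, h.unit, mul_one] at h2
    have hcn : ‖c‖ = 1 := by
      have h3 : ((‖c‖ ^ 2 : ℝ) : ℂ) = 1 := by
        rw [← Complex.normSq_eq_norm_sq, Complex.normSq_eq_conj_mul_self]
        exact hc1
      have h4 : ‖c‖ ^ 2 = 1 := by exact_mod_cast h3
      nlinarith [norm_nonneg c]
    have hoff := h.off x (g.1 x) (Ne.symm hx)
    have hoff' := h.off (g.1 x) x hx
    have h3 : ‖z‖ = ‖ip (v x) (v (g.1 x))‖ := by rw [h1, norm_mul, hcn, one_mul]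
    have h4 : ‖z‖ * ‖ip (v (g.1 x)) (v x)‖ = 1 := by rw [← norm_mul, h2, hcn]
    have h5 : (‖z‖ * ‖ip (v (g.1 x)) (v x)‖) ^ 2 = 1 := by rw [h4, one_pow]
    rw [mul_pow, hoff', h3, hoff] at h5
    have h6 : (0 : ℝ) < Fintype.card I := by
      exact_mod_cast Nat.pos_of_ne_zero hI
    field_simp at h5
    nlinarith

end Pool.Agent.Lib_MP_1c78a5_odd
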