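import Pool.Agent.Lib_MP_1c78a5_odd.General
import Pool.Agent.Lib_MP_1c78a5_odd.Arith43

/-!
# Symmetries of a SIC
-/

set_option autoImplicit false
set_option linter.unusedSectionVars false

namespace Pool.Agent.Lib_MP_1c78a5_odd

open Matrix Finset

variable {I J : Type} [Fintype I] [DecidableEq I] [Fintype J] [DecidableEq J]

theorem ip_unitary {U : Matrix I I ℂ} (hU : Uᴴ * U = 1) (u w : I → ℂ) :
    ip (U *ᵥ u) (U *ᵥ w) = ip u w := by
  unfold ip
  rw [star_mulVec, ← dotProduct_mulVec, mulVec_mulVec, hU, one_mulVec]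

theorem norm_phase {v : J → I → ℂ} (h : IsSIC v) {U : Matrix I I ℂ} (hU : Uᴴ * U = 1) {x y : J}
    {c : ℂ} (hc : U *ᵥ v x = c • v y) : star c * c = 1 := by
  have h1 := ip_unitary hU (v x) (v x)
  rw [hc, ip_smul_left, ip_smul_right, h.unit, h.unit, mul_one] at h1
  exact h1

/-- a unitary which fixes all lines is scalar -/
theorem scalar_of_fix {v : J → I → ℂ} (h : IsSIC v) {U : Matrix I I ℂ} (hU : Uᴴ * U = 1)
    (hf : ∀ x, ∃ c : ℂ, U *ᵥ v x = c • v x) : ∃ z : ℂ, U = z • 1 := by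
  have hcomm : ∀ x, U * pr v x = pr v x * U := by
    intro x
    obtain ⟨c, hc⟩ := hf x
    have hc1 := norm_phase h hU hc
    have h1 : Uᴴ *ᵥ v x = star c • v x := by
      have h2 : Uᴴ *ᵥ (U *ᵥ v x) = v x := by rw [mulVec_mulVec, hU, one_mulVec]
      rw [hc, mulVec_smul] at h2
      have h3 := congrArg (fun w => star c • w) h2
      simp only [smul_smul, hc1, one_smul] at h3
      exact h3
    unfold pr
    rw [mul_vecMulVec, vecMulVec_mul, hc]
    have h2 : star (v x) ᵥ* U = c • star (v x) := by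
      have h3 := congrArg star h1
      rw [star_mulVec, conjTranspose_conjTranspose, star_smul, star_star] at h3
      exact h3
    rw [h2, smul_vecMulVec, vecMulVec_smul]
  have h1 : LinearMap.mulLeft ℂ U = LinearMap.mulRight ℂ U := by
    apply LinearMap.ext_on_range (span_pr h)
    intro x
    exact hcomm x
  have h2 : ∀ M : Matrix I I ℂ, U * M = M * U := fun M => LinearMap.congr_fun h1 M
  have h3 : U ∈ Set.range (Matrix.scalar I) :=
    Matrix.mem_range_scalar_iff_commute_single'.2 fun i j => (h2 _).symm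
  obtain ⟨z, hz⟩ := h3
  refine ⟨z, ?_⟩
  rw [← hz, Matrix.scalar_apply, Matrix.smul_one_eq_diagonal]

/-- the trace of an involution is an integer -/
theorem trace_int {U : Matrix I I ℂ} (hU : U * U = 1) : ∃ T : ℤ, U.trace = T := by
  let P : Matrix I I ℂ := (1 / 2 : ℂ) • (1 + U)
  have hP : P * P = P := by
    simp only [P]
    rw [smul_mul_smul_comm, mul_add, add_mul, add_mul, hU, one_mul, mul_one, one_mul]
    rw [show (1 + U + (U + 1) : Matrix I I ℂ) = (2 : ℂ) • (1 + U) by rw [two_smul]; abel]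
    rw [smul_smul]
    norm_num
  have hQ : IsIdempotentElem (Matrix.toLin' P) := by
    unfold IsIdempotentElem
    rw [Module.End.mul_eq_comp, ← Matrix.toLin'_mul, hP]
  have h1 := (LinearMap.IsIdempotentElem.isProj_range _ hQ).trace
  rw [Matrix.trace_toLin'_eq] at h1
  simp only [P] at h1
  rw [Matrix.trace_smul, Matrix.trace_add, Matrix.trace_one, smul_eq_mul] at h1
  refine ⟨2 * (Module.finrank ℂ (LinearMap.range (Matrix.toLin' ((1 / 2 : ℂ) • (1 + U))))) -
    (Fintype.card I : ℤ), ?_⟩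
  push_cast
  rw [← h1]
  ring

/-- the data of a symmetry of order two -/
theorem square_of_involution {v : J → I → ℂ} (h : IsSIC v) {U : Matrix I I ℂ} (hU : Uᴴ * U = 1)
    (hUU : U * U = 1) (π : J → J) (hπ : ∀ x, ∃ c : ℂ, U *ᵥ v x = c • v (π x))
    (hfix : ∃ x, π x = x) (hns : ¬ ∃ z : ℂ, U = z • 1) :
    IsSquare (Fintype.card I + 1) := by
  classical
  have hH : Uᴴ = U := by
    calc Uᴴ = Uᴴ * (U * U) := by rw [hUU, mul_one]
      _ = U := by rw [← mul_assoc, hU, one_mul]
  have hreal : ∀ x, star (q v U x) = q v U x := by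
    intro x
    unfold q
    rw [ip_conj]
    unfold ip
    rw [star_mulVec, hH, ← dotProduct_mulVec]
  obtain ⟨x0, hx0⟩ := hfix
  have hI : 0 < Fintype.card I := by
    rcases Nat.eq_zero_or_pos (Fintype.card I) with h0 | h0
    · have h1 := h.card
      rw [h0] at h1
      have : IsEmpty J := Fintype.card_eq_zero_iff.1 (by simpa using h1)
      exact this.elim x0
    · exact h0
  set d : ℕ := Fintype.card I with hd
  have hs : (0 : ℝ) < √((d : ℝ) + 1) := by positivity
  have hss : √((d : ℝ) + 1) ^ 2 = (d : ℝ) + 1 := Real.sq_sqrt (by positivity)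
  -- the real numbers t
  have ht : ∀ x, ∃ s : ℤ, (s = 1 ∨ s = -1) ∧
      q v U x = if π x = x then ((s : ℝ) : ℂ) else ((s / √((d : ℝ) + 1) : ℝ) : ℂ) := by
    intro x
    obtain ⟨c, hc⟩ := hπ x
    have hc1 := norm_phase h hU hc
    have hc2 : ‖c‖ = 1 := by
      have h2 : ((‖c‖ ^ 2 : ℝ) : ℂ) = 1 := by
        rw [← Complex.normSq_eq_norm_sq, Complex.normSq_eq_conj_mul_self]
        exact hc1
      have h3 : ‖c‖ ^ 2 = 1 := by exact_mod_cast h2
      nlinarith [norm_nonneg c]
    have hr : ∃ r : ℝ, q v U x = r := by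
      refine ⟨(q v U x).re, ?_⟩
      exact ((Complex.conj_eq_iff_re).1 (hreal x)).symm
    obtain ⟨r, hr⟩ := hr
    have hq : q v U x = c * ip (v x) (v (π x)) := by
      unfold q
      rw [hc, ip_smul_right]
    have hn : |r| = ‖ip (v x) (v (π x))‖ := by
      have h2 : ‖q v U x‖ = ‖ip (v x) (v (π x))‖ := by rw [hq, norm_mul, hc2, one_mul]
      rw [← h2, hr, Complex.norm_real, Real.norm_eq_abs]
    by_cases hx : π x = x
    · rw [hx, h.unit, norm_one] at hn
      rcases (abs_eq (zero_le_one' ℝ)).1 hn with h2 | h2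
      · exact ⟨1, Or.inl rfl, by rw [if_pos hx, hr, h2]; simp⟩
      · exact ⟨-1, Or.inr rfl, by rw [if_pos hx, hr, h2]; simp⟩
    · have h2 := h.off x (π x) (Ne.symm hx)
      rw [← hn, sq_abs] at h2
      have h3 : (r * √((d : ℝ) + 1)) ^ 2 = 1 := by
        have h30 : ((d : ℝ) + 1) ≠ 0 := by positivity
        rw [mul_pow, h2, hss]
        exact one_div_mul_cancel h30
      rcases sq_eq_one_iff_of_ne_zero_aux (r * √((d : ℝ) + 1)) h3 with h4 | h4
      · refine ⟨1, Or.inl rfl, ?_⟩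
        rw [if_neg hx, hr]
        congr 1
        rw [eq_div_iff hs.ne', h4]
        simp
      · refine ⟨-1, Or.inr rfl, ?_⟩
        rw [if_neg hx, hr]
        congr 1
        rw [eq_div_iff hs.ne', h4]
        simp
  choose s hs1 hs2 using ht
  obtain ⟨T, hT⟩ := trace_int hUU
  set F : Finset J := univ.filter (fun x => π x = x) with hF
  -- two-design: #F = T^2
  have hcard : ((F.card : ℤ)) = T ^ 2 := by
    have h1 := sum_q_mul h U U
    rw [hUU, trace_one, hT] at h1
    have h2 : ∀ x, q v U x * q v U x = 1 * (if π x = x then 1 else 1 / ((d : ℂ) + 1)) := by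
      intro x
      have h3 : ((s x : ℝ) : ℂ) * ((s x : ℝ) : ℂ) = 1 := by
        rcases hs1 x with h4 | h4 <;> rw [h4] <;> norm_num
      rw [hs2 x, one_mul]
      split_ifs
      · exact h3
      · have h5 : ((√((d : ℝ) + 1) : ℝ) : ℂ) * ((√((d : ℝ) + 1) : ℝ) : ℂ) = (d : ℂ) + 1 := by
          rw [← Complex.ofReal_mul, Real.mul_self_sqrt (by positivity)]
          push_cast
          rfl
        rw [Complex.ofReal_div, div_mul_div_comm, h3, h5]
    rw [sum_congr rfl fun x _ => h2 x] at h1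
    have hdn := dne I
    rw [← hd] at hdn h1
    have h4 : ∑ x : J, (1 : ℂ) * (if π x = x then 1 else 1 / ((d : ℂ) + 1)) =
        F.card * ((d : ℂ) / ((d : ℂ) + 1)) + (d : ℂ) ^ 2 / ((d : ℂ) + 1) := by
      have h5 : ∀ x : J, (1 : ℂ) * (if π x = x then 1 else 1 / ((d : ℂ) + 1)) =
          (if π x = x then (d : ℂ) / ((d : ℂ) + 1) else 0) + 1 / ((d : ℂ) + 1) := by
        intro x
        split_ifs
        · field_simp
        · ring
      rw [sum_congr rfl fun x _ => h5 x, sum_add_distrib, ← sum_filter, sum_const, sum_const,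
        card_univ, h.card, ← hd, nsmul_eq_mul, nsmul_eq_mul]
      push_cast
      ring
    rw [h4] at h1
    have hd0 : (d : ℂ) ≠ 0 := Nat.cast_ne_zero.2 hI.ne'
    field_simp at h1
    have h6 : ((F.card : ℂ)) = (T : ℂ) ^ 2 := by linear_combination h1
    exact_mod_cast h6
  have hF0 : 0 < F.card := card_pos.2 ⟨x0, by rw [hF, mem_filter]; exact ⟨mem_univ _, hx0⟩⟩
  -- one-design
  have hsum : (d : ℝ) * T = ((∑ x ∈ F, s x : ℤ) : ℝ) +
      ((∑ x ∈ univ.filter (fun x => ¬ π x = x), s x : ℤ) : ℝ) / √((d : ℝ) + 1) := by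
    have h1 := sum_q h U
    rw [hT, ← hd] at h1
    have h2 : ∑ x, q v U x = (((∑ x ∈ F, s x : ℤ) : ℝ) +
      ((∑ x ∈ univ.filter (fun x => ¬ π x = x), s x : ℤ) : ℝ) / √((d : ℝ) + 1) : ℝ) := by
      rw [sum_congr rfl fun x _ => hs2 x, sum_ite]
      push_cast
      rw [sum_div]
    rw [h2] at h1
    have h3 : ((((∑ x ∈ F, s x : ℤ) : ℝ) +
      ((∑ x ∈ univ.filter (fun x => ¬ π x = x), s x : ℤ) : ℝ) / √((d : ℝ) + 1) : ℝ) : ℂ) =
      (((d : ℝ) * T : ℝ) : ℂ) := by
      rw [h1]
      push_cast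
      rfl
    exact (Complex.ofReal_injective h3).symm
  have hK : |∑ x ∈ F, s x| ≤ (F.card : ℤ) := by
    refine (abs_sum_le_sum_abs _ _).trans ?_
    refine (sum_le_card_nsmul F _ 1 fun x _ => ?_).trans (by simp)
    rcases hs1 x with h4 | h4 <;> rw [h4] <;> norm_num
  have hlt : F.card < d ^ 2 := by
    rw [hd, ← h.card]
    refine lt_of_le_of_ne (card_le_univ _) fun heq => hns ?_
    have h1 : F = univ := (card_eq_iff_eq_univ _).1 heq
    apply scalar_of_fix h hU
    intro x
    obtain ⟨c, hc⟩ := hπ x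
    have h2 : x ∈ F := by rw [h1]; exact mem_univ _
    rw [hF, mem_filter] at h2
    exact ⟨c, by rw [hc, h2.2]⟩
  exact Pool.Agent.MP_1c78a5_odd.isSquare_of_trace d F.card T _ _ hI hcard hF0 hK hsum hlt
where
  sq_eq_one_iff_of_ne_zero_aux (r : ℝ) (h : r ^ 2 = 1) : r = 1 ∨ r = -1 := by
    have h1 : (r - 1) * (r + 1) = 0 := by ring_nf; linarith
    rcases mul_eq_zero.1 h1 with h2 | h2
    · left; linarith
    · right; linarith

end Pool.Agent.Lib_MP_1c78a5_odd
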