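import Pool.Agent.Lib_MP_1c78a5_odd.Group43

/-!
# One symmetry of order two: a line is fixed, or the dimension is odd (helper43)
-/

set_option autoImplicit false
set_option linter.unusedSectionVars false

namespace Pool.Agent.Lib_MP_1c78a5_odd

open Matrix Finset

variable {I J : Type} [Fintype I] [DecidableEq I] [Fintype J] [DecidableEq J]

/-- the vectors of a SIC in dimension at least one are pairwise not proportional -/
theorem line_inj {v : J → I → ℂ} (h : IsSIC v) (hI : 0 < Fintype.card I) {x y : J} {c : ℂ}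
    (hc : v x = c • v y) : x = y := by
  by_contra hx
  have h1 := congrArg (ip (v x)) hc
  rw [ip_smul_right, h.unit] at h1
  have h2 := congrArg (ip (v y)) hc
  rw [ip_smul_right, h.unit, mul_one] at h2
  have hoff := h.off x y hx
  have hoff' := h.off y x (Ne.symm hx)
  have h4 : ‖ip (v y) (v x)‖ * ‖ip (v x) (v y)‖ = 1 := by
    rw [h2, ← norm_mul, ← h1, norm_one]
  have h5 : (‖ip (v y) (v x)‖ * ‖ip (v x) (v y)‖) ^ 2 = 1 := by rw [h4, one_pow]
  rw [mul_pow, hoff', hoff] at h5
  have h6 : (0 : ℝ) < Fintype.card I := by exact_mod_cast hI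
  field_simp at h5
  nlinarith

theorem square_of_sym' {v : J → I → ℂ} (h : IsSIC v) {U : Matrix I I ℂ} (hU : Uᴴ * U = 1)
    (π : J → J) (hπ : ∀ x, ∃ c : ℂ, U *ᵥ v x = c • v (π x))
    (hfix : Odd (Fintype.card I) ∨ ∃ x, π x = x) (hz : ∃ z : ℂ, U * U = z • 1)
    (hns : ¬ ∃ z : ℂ, U = z • 1) : IsSquare (Fintype.card I + 1) := by
  rcases hfix with hod | hfix
  · have hI : 0 < Fintype.card I := hod.pos
    have hinv : Function.Involutive π := by
      intro x
      obtain ⟨c, hc⟩ := hπ x
      obtain ⟨e, he⟩ := hπ (π x)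
      obtain ⟨z, hz⟩ := hz
      have h1 : z • v x = (c * e) • v (π (π x)) := by
        have h2 : (U * U) *ᵥ v x = (c * e) • v (π (π x)) := by
          rw [← mulVec_mulVec, hc, mulVec_smul, he, smul_smul]
        rw [← h2, hz, smul_mulVec, one_mulVec]
      have hc1 := norm_phase h hU hc
      have he1 := norm_phase h hU he
      have hce : c * e ≠ 0 := by
        apply mul_ne_zero
        · rintro rfl; simp at hc1
        · rintro rfl; simp at he1
      refine line_inj h hI (c := (c * e)⁻¹ * z) ?_
      rw [← smul_smul, h1, smul_smul, inv_mul_cancel₀ hce, one_smul]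
    refine square_of_sym h hU π hπ ?_ hz hns
    have hσ : (hinv.toPerm π) ^ 2 ^ 1 = 1 := by
      rw [pow_one, sq]
      ext x
      simp [hinv x]
    obtain ⟨x, hx⟩ := Equiv.Perm.exists_fixed_point_of_prime (p := 2) (n := 1)
      (by
        rw [h.card]
        intro h2
        exact (Nat.not_even_iff_odd.mpr hod)
          (even_iff_two_dvd.mpr (Nat.prime_two.dvd_of_dvd_pow h2))) hσ
    exact ⟨x, by simpa using hx⟩
  · exact square_of_sym h hU π hπ hfix hz hns

end Pool.Agent.Lib_MP_1c78a5_odd
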