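import Pool.Agent.Lib_MP_1c78a5_odd.Defs
import Pool.Agent.Lib_MP_1c78a5_odd.General

/-!
# The SIC of a Weyl-Heisenberg fiducial
-/

set_option autoImplicit false

namespace Pool.Agent.Lib_MP_1c78a5_odd

open Matrix Finset

theorem shift_mulVec {d : ℕ} [NeZero d] (n : ℕ) (ψ : ZMod d → ℂ) :
    (shiftOp d ^ n).mulVec ψ = fun i => ψ (i - n) := by
  induction n generalizing ψ with
  | zero => simp
  | succ n ih =>
    rw [pow_succ, ← Matrix.mulVec_mulVec, ih]
    funext i
    have h1 : (shiftOp d).mulVec ψ (i - n) = ψ (i - n - 1) := by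
      unfold shiftOp Matrix.mulVec dotProduct
      simp only [Matrix.of_apply]
      rw [sum_eq_single (i - n - 1)]
      · simp
      · intro j _ hj
        rw [if_neg, zero_mul]
        intro h
        apply hj
        rw [h]
        ring
      · intro h
        exact absurd (mem_univ _) h
    rw [h1]
    congr 1
    push_cast
    ring

theorem clock_mulVec {d : ℕ} [NeZero d] (n : ℕ) (ψ : ZMod d → ℂ) (i : ZMod d) :
    (clockOp d ^ n).mulVec ψ i = (Complex.exp (2 * Real.pi * Complex.I / d) ^ n) ^ i.val * ψ i := by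
  unfold clockOp
  rw [Matrix.diagonal_pow, Matrix.mulVec_diagonal, Pi.pow_apply, ← pow_mul, ← pow_mul, mul_comm n]

/-- the standard character -/
noncomputable def ch {d : ℕ} [NeZero d] (x : ZMod d) : ℂ := ZMod.stdAddChar x

theorem ch_add {d : ℕ} [NeZero d] (x y : ZMod d) : ch (x + y) = ch x * ch y := by
  unfold ch
  exact AddChar.map_add_eq_mul _ _ _

theorem ch_norm {d : ℕ} [NeZero d] (x : ZMod d) : ‖ch x‖ = 1 := by
  unfold ch
  exact AddChar.norm_apply _ _

theorem ch_neg {d : ℕ} [NeZero d] (x : ZMod d) : ch (-x) = star (ch x) := by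
  unfold ch
  rw [AddChar.map_neg_eq_inv]
  have := ch_norm x
  unfold ch at this
  rw [Complex.inv_def, Complex.normSq_eq_norm_sq, this]
  simp

theorem pow_eq_ch {d : ℕ} [NeZero d] (b i : ZMod d) :
    (Complex.exp (2 * Real.pi * Complex.I / d) ^ b.val) ^ i.val = ch (b * i) := by
  unfold ch
  have h1 : (b * i : ZMod d) = (((b.val * i.val : ℕ) : ℤ) : ZMod d) := by
    push_cast
    rw [ZMod.natCast_zmod_val, ZMod.natCast_zmod_val]
  rw [h1, ZMod.stdAddChar_coe, ← pow_mul, ← Complex.exp_nat_mul]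
  congr 1
  push_cast
  ring

theorem disp_apply {d : ℕ} [NeZero d] (ψ : ZMod d → ℂ) (a b i : ZMod d) :
    (displacement d a b *ᵥ ψ) i = ch (b * (i - a)) * ψ (i - a) := by
  unfold displacement
  rw [← Matrix.mulVec_mulVec, shift_mulVec]
  simp only [ZMod.natCast_zmod_val]
  rw [clock_mulVec, pow_eq_ch]

theorem ip_disp {d : ℕ} [NeZero d] (ψ : ZMod d → ℂ) (a b a' b' : ZMod d) :
    ip (displacement d a b *ᵥ ψ) (displacement d a' b' *ᵥ ψ) =
      ch (-(b * (a' - a))) * (star ψ ⬝ᵥ (displacement d (a' - a) (b' - b) *ᵥ ψ)) := by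
  unfold ip dotProduct
  rw [mul_sum, ← Equiv.sum_comp (Equiv.addRight a)]
  refine sum_congr rfl fun j _ => ?_
  simp only [Pi.star_apply, disp_apply, Equiv.coe_addRight, star_mul']
  rw [← ch_neg]
  have h1 : j + a - a = j := by ring
  have h2 : j + a - a' = j - (a' - a) := by ring
  rw [h1, h2]
  have h3 : ch (-(b * j)) * ch (b' * (j - (a' - a))) =
      ch (-(b * (a' - a))) * ch ((b' - b) * (j - (a' - a))) := by
    rw [← ch_add, ← ch_add]
    congr 1
    ring
  calc ch (-(b * j)) * star (ψ j) * (ch (b' * (j - (a' - a))) * ψ (j - (a' - a)))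
      = (ch (-(b * j)) * ch (b' * (j - (a' - a)))) * (star (ψ j) * ψ (j - (a' - a))) := by ring
    _ = _ := by rw [h3]; ring

theorem disp_zero {d : ℕ} [NeZero d] (ψ : ZMod d → ℂ) : displacement d 0 0 *ᵥ ψ = ψ := by
  funext i
  rw [disp_apply]
  have h0 : ch (0 : ZMod d) = 1 := by
    unfold ch
    exact AddChar.map_zero_eq_one _
  simp [h0]

theorem wh_sic {d : ℕ} [NeZero d] {ψ : ZMod d → ℂ} (h : IsFiducial ψ) :
    IsSIC (J := ZMod d × ZMod d) (fun x => displacement d x.1 x.2 *ᵥ ψ) where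
  card := by rw [Fintype.card_prod, ZMod.card, sq]
  unit := by
    intro x
    rw [ip_disp, sub_self, sub_self, mul_zero, neg_zero, disp_zero]
    have h0 : ch (0 : ZMod d) = 1 := by
      unfold ch
      exact AddChar.map_zero_eq_one _
    rw [h0, one_mul]
    have h1 : (star ψ ⬝ᵥ ψ) = ((∑ i, ‖ψ i‖ ^ 2 : ℝ) : ℂ) := by
      unfold dotProduct
      push_cast
      refine sum_congr rfl fun i _ => ?_
      rw [Pi.star_apply, Complex.star_def, ← Complex.normSq_eq_conj_mul_self,
        Complex.normSq_eq_norm_sq]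
      push_cast
      rfl
    rw [h1, h.1]
    simp
  off := by
    intro x y hxy
    rw [ip_disp, norm_mul, ch_norm, one_mul, ZMod.card]
    apply h.2
    intro h2
    rw [Prod.mk.injEq, sub_eq_zero, sub_eq_zero] at h2
    exact hxy (Prod.ext h2.1.symm h2.2.symm)

/-- the multiplier symmetry -/
theorem mult_sym (d : ℕ) [NeZero d] (u : ZMod d) (hu : u * u = 1) (ψ : ZMod d → ℂ) (e : ℂ)
    (he : ∀ i, ψ (u * i) = e * ψ i) : ∃ U : Matrix (ZMod d) (ZMod d) ℂ, Uᴴ * U = 1 ∧ U * U = 1 ∧
      (∀ a b, U *ᵥ (displacement d a b *ᵥ ψ) = e • (displacement d (u * a) (u * b) *ᵥ ψ)) ∧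
      (u ≠ 1 → ¬ ∃ z : ℂ, U = z • 1) := by
  let U : Matrix (ZMod d) (ZMod d) ℂ := Matrix.of fun i j => if j = u * i then 1 else 0
  have huu : ∀ i, u * (u * i) = i := fun i => by rw [← mul_assoc, hu, one_mul]
  have hmv : ∀ (w : ZMod d → ℂ) i, (U *ᵥ w) i = w (u * i) := by
    intro w i
    unfold U Matrix.mulVec dotProduct
    simp
  have hUU : U * U = 1 := by
    ext i j
    rw [Matrix.mul_apply, Matrix.one_apply]
    simp only [U, Matrix.of_apply]
    rw [sum_eq_single (u * i)]
    · simp [huu, eq_comm]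
    · intro k _ hk
      rw [if_neg hk, zero_mul]
    · intro h
      exact absurd (mem_univ _) h
  have hH : Uᴴ = U := by
    ext i j
    rw [Matrix.conjTranspose_apply]
    simp only [U, Matrix.of_apply]
    by_cases h : j = u * i
    · rw [if_pos h, h, huu]
      simp
    · rw [if_neg h, if_neg]
      · simp
      · intro h2
        apply h
        rw [h2, huu]
  refine ⟨U, by rw [hH, hUU], hUU, ?_, ?_⟩
  · intro a b
    funext i
    rw [hmv, Pi.smul_apply, disp_apply, disp_apply, smul_eq_mul]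
    have h1 : u * i - a = u * (i - u * a) := by
      rw [mul_sub, huu]
    have h2 : b * (u * i - a) = u * b * (i - u * a) := by
      rw [h1]
      ring
    rw [h2, h1, he]
    ring
  · rintro hu1 ⟨z, hz⟩
    apply hu1
    by_contra hne
    have h1 := congrFun (congrFun hz 1) u
    have h2 : U 1 u = 1 := by simp [U]
    rw [h2] at h1
    simp [Matrix.one_apply, Ne.symm hu1] at h1

end Pool.Agent.Lib_MP_1c78a5_odd
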